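import Pool.Agent.Helper9Wfc.TraceSeq

set_option autoImplicit false

open Set Filter Topology MeasureTheory Helper9Wfc

namespace Pool.Agent.Results.MP_5baa61_gt.DefinableTraces

/-- The trace of the point `p` on the sequence `a`: the set of those `χ` in the Cantor space
`ℕ → Bool` for which `p` is in the closure of `{a n | χ n = true}`. -/
def trace {X : Type*} [TopologicalSpace X] (a : ℕ → X) (p : X) : Set (ℕ → Bool) :=
  {χ | p ∈ closure (a '' {n | χ n = true})}

/-- If `p` has a countable neighbourhood base, then all traces of `p` are `G_δ` sets. -/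
theorem isGδ_trace {X : Type*} [TopologicalSpace X] (a : ℕ → X) (p : X)
    (hp : (𝓝 p).IsCountablyGenerated) : IsGδ (trace a p) := by
  obtain ⟨B, hB⟩ := (𝓝 p).exists_antitone_basis
  have h1 : trace a p = ⋂ n, ⋃ m ∈ {m | a m ∈ B n}, {χ : ℕ → Bool | χ m = true} := by
    ext χ
    simp only [trace, mem_ofPred_eq, mem_iInter, mem_iUnion, exists_prop]
    rw [mem_closure_iff_nhds_basis hB.toHasBasis]
    constructor
    · intro h n
      obtain ⟨_, ⟨m, hm, rfl⟩, h2⟩ := h n trivial
      exact ⟨m, h2, hm⟩
    · intro h n _
      obtain ⟨m, h2, hm⟩ := h n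
      exact ⟨a m, ⟨m, hm, rfl⟩, h2⟩
  rw [h1]
  refine IsGδ.iInter_of_isOpen fun n => isOpen_biUnion fun m _ => ?_
  have h2 : Continuous fun χ : ℕ → Bool => χ m := continuous_apply m
  exact (isOpen_discrete ({true} : Set Bool)).preimage h2

theorem polishSpace_cantor : PolishSpace (ℕ → Bool) :=
  @instPolishSpaceOfSeparableSpaceOfIsCompletelyMetrizableSpace _ _
    TopologicalSpace.SecondCountableTopology.to_separableSpace inferInstance

/-- **Main theorem.** Let `X` be a compact Hausdorff space with a weak base (so `X` is weakly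
first countable) and let `p` be a point of `X`. If all traces of `p` are in the sigma-algebra
generated by the analytic sets, then `p` has a countable neighbourhood base, and then all traces
of `p` are `G_δ` sets. -/
theorem result {X : Type*} [TopologicalSpace X] [CompactSpace X] [T2Space X]
    (V : X → ℕ → Set X) (hV : IsWeakBase V) (p : X) :
    List.TFAE [(𝓝 p).IsCountablyGenerated,
      ∀ a : ℕ → X, IsGδ (trace a p),
      ∀ a : ℕ → X, MeasurableSet[MeasurableSpace.generateFrom
        {S : Set (ℕ → Bool) | AnalyticSet S}] (trace a p)] := by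
  tfae_have 1 → 2 := fun h a => isGδ_trace a p h
  tfae_have 2 → 3 := by
    intro h a
    refine MeasurableSpace.measurableSet_generateFrom ?_
    have h1 : MeasurableSet (trace a p) := (h a).measurableSet
    have h2 := polishSpace_cantor
    exact h1.analyticSet
  tfae_have 3 → 1 := by
    intro h
    have hseq : SequentialSpace X := hV.sequentialSpace
    have hn : ∀ n, V p n ∈ 𝓝 p := by
      intro n
      by_contra hcon
      have h1 : p ∈ closure (V p n)ᶜ := by
        rw [closure_compl, mem_compl_iff, mem_interior_iff_mem_nhds]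
        exact hcon
      obtain ⟨B, hB, hBc, hpB⟩ := countable_tight h1
      have hBn : B.Nonempty := closure_nonempty_iff.1 ⟨p, hpB⟩
      obtain ⟨a, rfl⟩ := hBc.exists_eq_range hBn
      obtain ⟨c, hc⟩ := exists_seq_of_measurable a p hpB (h a)
      obtain ⟨k, hk⟩ := (hV.eventually_mem hc n).exists
      exact hB (mem_range_self (c k)) hk
    have hbasis : (𝓝 p).HasBasis (fun _ : ℕ => True) (V p) := by
      refine ⟨fun t => ⟨fun ht => ?_, fun ⟨n, _, h2⟩ => mem_of_superset (hn n) h2⟩⟩
      obtain ⟨n, h2⟩ := hV.exists_sub isOpen_interior (mem_interior_iff_mem_nhds.2 ht)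
      exact ⟨n, trivial, h2.trans interior_subset⟩
    exact hbasis.isCountablyGenerated
  tfae_finish

end Pool.Agent.Results.MP_5baa61_gt.DefinableTraces
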