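import Pool.Agent.Helper9Wfc.Basic

set_option autoImplicit false

open Set Filter Topology Helper9Wfc

namespace Pool.Agent.Results.MP_5baa61_gt.DiagonalFibre

/-- A sequential space in which iterated limits have diagonal sequences is Frechet. -/
theorem closure_subset_of_diagonal {X : Type*} [TopologicalSpace X] [SequentialSpace X]
    (hd : ∀ (x : ℕ → X) (p : X) (a : ℕ → ℕ → X), Tendsto x atTop (𝓝 p) →
      (∀ k, Tendsto (a k) atTop (𝓝 (x k))) → ∃ j : ℕ → ℕ,
        Tendsto (fun k => a k (j k)) atTop (𝓝 p)) (A : Set X) :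
    closure A ⊆ seqClosure A := by
  have h1 : IsSeqClosed (seqClosure A) := by
    intro x p hx hxp
    choose a ha hax using hx
    obtain ⟨j, hj⟩ := hd x p a hxp hax
    exact ⟨fun k => a k (j k), fun k => ha k (j k), hj⟩
  exact closure_minimal subset_seqClosure h1.isClosed

/-- The product of two compact Hausdorff sequential spaces is sequential. -/
theorem sequentialSpace_prod {X Y : Type*} [TopologicalSpace X] [TopologicalSpace Y]
    [SequentialSpace X] [SequentialSpace Y] [CompactSpace Y] [T2Space Y] :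
    SequentialSpace (X × Y) := by
  refine ⟨fun C hC => ?_⟩
  rw [← isOpen_compl_iff, isOpen_iff_mem_nhds]
  rintro ⟨x0, y0⟩ h0
  have h1 : IsClosed {y | (x0, y) ∈ C} := by
    rw [← isSeqClosed_iff_isClosed]
    intro u y hu huy
    exact hC hu (tendsto_const_nhds.prodMk_nhds huy)
  have h2 : {y | (x0, y) ∈ C}ᶜ ∈ 𝓝 y0 := h1.isOpen_compl.mem_nhds h0
  obtain ⟨W, hW, hWc, hWs⟩ := exists_mem_nhds_isClosed_subset h2
  have h3 : IsClosed {x | ∃ y ∈ W, (x, y) ∈ C} := by
    rw [← isSeqClosed_iff_isClosed]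
    intro u x hu hux
    choose v hvW hv using hu
    obtain ⟨y, φ, hφ, hy⟩ := SeqCompactSpace.tendsto_subseq v
    refine ⟨y, hWc.mem_of_tendsto hy (Eventually.of_forall fun k => hvW (φ k)), ?_⟩
    exact hC (fun k => hv (φ k)) ((hux.comp hφ.tendsto_atTop).prodMk_nhds hy)
  have h4 : {x | ∃ y ∈ W, (x, y) ∈ C}ᶜ ∈ 𝓝 x0 := by
    refine h3.isOpen_compl.mem_nhds ?_
    rintro ⟨y, hyW, hy⟩
    exact hWs hyW hy
  filter_upwards [prod_mem_nhds h4 hW] with z hz hzC
  exact hz.1 ⟨z.2, hz.2, hzC⟩

/-- diagonal subsequences -/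
theorem exists_diagonal_subseq {Y : Type*} [TopologicalSpace Y] [SeqCompactSpace Y]
    (g : ℕ → ℕ → Y) :
    ∃ φ : ℕ → ℕ, StrictMono φ ∧ ∀ k, ∃ y, Tendsto (fun l => g k (φ l)) atTop (𝓝 y) := by
  have h1 : ∀ (k : ℕ) (θ : ℕ → ℕ), ∃ ψ : ℕ → ℕ, StrictMono ψ ∧
      ∃ y, Tendsto (fun l => g k (θ (ψ l))) atTop (𝓝 y) := by
    intro k θ
    obtain ⟨y, ψ, hψ, hy⟩ := SeqCompactSpace.tendsto_subseq (fun l => g k (θ l))
    exact ⟨ψ, hψ, y, hy⟩
  choose ψ hψ hlim using h1
  let Φ : ℕ → ℕ → ℕ := fun k => Nat.rec (ψ 0 id) (fun k θ => θ ∘ ψ (k + 1) θ) k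
  have hΦs : ∀ k, Φ (k + 1) = Φ k ∘ ψ (k + 1) (Φ k) := fun k => rfl
  have hΦm : ∀ k, StrictMono (Φ k) := by
    intro k
    induction k with
    | zero => exact hψ 0 id
    | succ k ih => rw [hΦs]; exact ih.comp (hψ _ _)
  have hΦl : ∀ k, ∃ y, Tendsto (fun l => g k (Φ k l)) atTop (𝓝 y) := by
    intro k
    cases k with
    | zero => exact hlim 0 id
    | succ k => exact hlim (k + 1) (Φ k)
  have hfac : ∀ k m, k ≤ m → ∃ θ : ℕ → ℕ, StrictMono θ ∧ Φ m = Φ k ∘ θ := by
    intro k m hkm
    induction m, hkm using Nat.le_induction with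
    | base => exact ⟨id, strictMono_id, rfl⟩
    | succ m _ ih =>
      obtain ⟨θ, hθ, h2⟩ := ih
      refine ⟨θ ∘ ψ (m + 1) (Φ m), hθ.comp (hψ _ _), ?_⟩
      rw [hΦs, ← Function.comp_assoc, ← h2]
  refine ⟨fun l => Φ l l, strictMono_nat_of_lt_succ fun l => ?_, fun k => ?_⟩
  · have h2 : Φ (l + 1) (l + 1) = Φ l (ψ (l + 1) (Φ l) (l + 1)) := rfl
    rw [h2]
    exact hΦm l ((Nat.lt_succ_self l).trans_le ((hψ _ _).id_le (l + 1)))
  · obtain ⟨y, hy⟩ := hΦl k
    refine ⟨y, ?_⟩
    have h2 : ∀ l, ∃ i, l ≤ i ∧ (k ≤ l → Φ l l = Φ k i) := by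
      intro l
      by_cases hkl : k ≤ l
      · obtain ⟨θ, hθ, h3⟩ := hfac k l hkl
        exact ⟨θ l, hθ.id_le l, fun _ => by rw [h3]; rfl⟩
      · exact ⟨l, le_rfl, fun h => absurd h hkl⟩
    choose i hi1 hi2 using h2
    have h3 : Tendsto i atTop atTop := tendsto_atTop_mono hi1 tendsto_id
    refine (hy.comp h3).congr' ?_
    filter_upwards [eventually_ge_atTop k] with l hl
    simp only [Function.comp_apply]
    rw [← hi2 l hl]

section

variable {X Y : Type*} [TopologicalSpace X] [CompactSpace X] [T2Space X] [TopologicalSpace Y]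
  [T2Space Y]

omit [T2Space X] in
theorem seqCompactSpace_of_fibre [SeqCompactSpace Y] (f : X × X → Y) (hf : Continuous f) (q : Y)
    (hq : ∀ z, f z = q ↔ z.1 = z.2) : SeqCompactSpace X := by
  refine ⟨fun u _ => ?_⟩
  obtain ⟨φ, hφ, hlim⟩ := exists_diagonal_subseq (fun k l => f (u k, u l))
  choose z hz using hlim
  obtain ⟨c, hc⟩ := exists_clusterPt_of_compactSpace (map (u ∘ φ) atTop)
  refine ⟨c, mem_univ c, φ, hφ, ?_⟩
  have hval : ∀ (F : Ultrafilter ℕ) (d : X), (F : Filter ℕ) ≤ atTop →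
      Tendsto (u ∘ φ) F (𝓝 d) → ∀ k, f (u k, d) = z k := by
    intro F d hF hd k
    have h1 : Tendsto (fun l => f (u k, u (φ l))) F (𝓝 (f (u k, d))) :=
      (hf.tendsto _).comp (tendsto_const_nhds.prodMk_nhds hd)
    exact tendsto_nhds_unique h1 ((hz k).mono_left hF)
  obtain ⟨F, hF, hFc⟩ := mapClusterPt_iff_ultrafilter.1 hc
  apply tendsto_nhds_of_unique_mapClusterPt
  intro d hd
  obtain ⟨F', hF', hFd⟩ := mapClusterPt_iff_ultrafilter.1 hd
  have h1 : ∀ k, f (u k, c) = f (u k, d) := fun k => by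
    rw [hval F c hF hFc k, hval F' d hF' hFd k]
  have h2 : Tendsto (fun l => f (u (φ l), c)) F (𝓝 (f (c, c))) :=
    (hf.tendsto _).comp (hFc.prodMk_nhds tendsto_const_nhds)
  have h3 : Tendsto (fun l => f (u (φ l), d)) F (𝓝 (f (c, d))) :=
    (hf.tendsto _).comp (hFc.prodMk_nhds tendsto_const_nhds)
  have h4 : f (c, c) = f (c, d) := by
    refine tendsto_nhds_unique h2 ?_
    simpa only [h1] using h3
  have h5 : f (c, d) = q := by
    rw [← h4]
    exact (hq _).2 rfl
  exact ((hq _).1 h5).symm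

omit [T2Space X] in
theorem sequentialSpace_of_fibre [SeqCompactSpace Y] [SequentialSpace Y] (f : X × X → Y)
    (hf : Continuous f) (q : Y) (hq : ∀ z, f z = q ↔ z.1 = z.2) : SequentialSpace X := by
  have hsc : SeqCompactSpace X := seqCompactSpace_of_fibre f hf q hq
  refine ⟨fun A hA => ?_⟩
  refine isClosed_of_closure_subset fun p hp => ?_
  have h1 : IsClosed ((fun x => f (x, p)) '' A) := by
    rw [← isSeqClosed_iff_isClosed]
    intro y y' hy hyy
    choose a haA hay using hy
    obtain ⟨b, φ, hφ, hb⟩ := SeqCompactSpace.tendsto_subseq a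
    refine ⟨b, hA (fun k => haA (φ k)) hb, ?_⟩
    have h2 : Tendsto (fun k => f (a (φ k), p)) atTop (𝓝 (f (b, p))) :=
      (hf.tendsto _).comp (hb.prodMk_nhds tendsto_const_nhds)
    have h3 : Tendsto (fun k => f (a (φ k), p)) atTop (𝓝 y') := by
      have h4 : (fun k => f (a (φ k), p)) = y ∘ φ := by
        funext k
        exact hay (φ k)
      rw [h4]
      exact hyy.comp hφ.tendsto_atTop
    exact tendsto_nhds_unique h2 h3
  have h2 : f (p, p) ∈ closure ((fun x => f (x, p)) '' A) :=
    image_closure_subset_closure_image (hf.comp (continuous_id.prodMk continuous_const))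
      ⟨p, hp, rfl⟩
  rw [h1.closure_eq] at h2
  obtain ⟨a, haA, ha⟩ := h2
  have h3 : f (a, p) = q := by
    have h4 : f (a, p) = f (p, p) := ha
    rw [h4]
    exact (hq _).2 rfl
  have h5 : a = p := (hq _).1 h3
  rwa [h5] at haA

theorem metrizable_of_compact [CompactSpace Y] (V : Y → ℕ → Set Y)
    (hV : IsWeakBase V) (f : X × X → Y) (hf : Continuous f) (q : Y)
    (hq : ∀ z, f z = q ↔ z.1 = z.2) : TopologicalSpace.MetrizableSpace X := by
  have hY : SequentialSpace Y := hV.sequentialSpace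
  have hX : SequentialSpace X := sequentialSpace_of_fibre f hf q hq
  -- diagonal sequences in `X`
  have key : ∀ (x : ℕ → X) (p : X) (a : ℕ → ℕ → X), Tendsto x atTop (𝓝 p) →
      (∀ k, Tendsto (a k) atTop (𝓝 (x k))) → ∃ j0 : ℕ → ℕ, ∀ j : ℕ → ℕ, (∀ k, j0 k ≤ j k) →
        Tendsto (fun k => a k (j k)) atTop (𝓝 p) := by
    intro x p a hx ha
    have h1 : ∀ k, Tendsto (fun j => f (x k, a k j)) atTop (𝓝 q) := by
      intro k
      have h2 : f (x k, x k) = q := (hq _).2 rfl
      rw [← h2]
      exact (hf.tendsto _).comp (tendsto_const_nhds.prodMk_nhds (ha k))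
    choose j0 hj0 using fun k => eventually_atTop.1 (hV.eventually_mem (h1 k) k)
    refine ⟨j0, fun j hj => ?_⟩
    have h3 : Tendsto (fun k => f (x k, a k (j k))) atTop (𝓝 q) :=
      hV.tendsto fun k => hj0 k (j k) (hj k)
    apply tendsto_nhds_of_unique_mapClusterPt
    intro y hy
    obtain ⟨F, hF, hFy⟩ := mapClusterPt_iff_ultrafilter.1 hy
    have h4 : Tendsto (fun k => f (x k, a k (j k))) F (𝓝 (f (p, y))) :=
      (hf.tendsto _).comp ((hx.mono_left hF).prodMk_nhds hFy)
    have h5 : f (p, y) = q := tendsto_nhds_unique h4 (h3.mono_left hF)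
    exact ((hq _).1 h5).symm
  have hprod : SequentialSpace (X × X) := sequentialSpace_prod
  have hd2 : ∀ (x : ℕ → X × X) (p : X × X) (a : ℕ → ℕ → X × X), Tendsto x atTop (𝓝 p) →
      (∀ k, Tendsto (a k) atTop (𝓝 (x k))) → ∃ j : ℕ → ℕ,
        Tendsto (fun k => a k (j k)) atTop (𝓝 p) := by
    intro x p a hx ha
    obtain ⟨j1, hj1⟩ := key (fun k => (x k).1) p.1 (fun k j => (a k j).1)
      ((continuous_fst.tendsto _).comp hx) (fun k => (continuous_fst.tendsto _).comp (ha k))
    obtain ⟨j2, hj2⟩ := key (fun k => (x k).2) p.2 (fun k j => (a k j).2)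
      ((continuous_snd.tendsto _).comp hx) (fun k => (continuous_snd.tendsto _).comp (ha k))
    refine ⟨fun k => max (j1 k) (j2 k), ?_⟩
    exact (hj1 _ fun k => le_max_left _ _).prodMk_nhds (hj2 _ fun k => le_max_right _ _)
  -- the preimages of the members of the weak base are neighbourhoods of the diagonal
  have hn : ∀ n, f ⁻¹' V q n ∈ 𝓝ˢ (diagonal X) := by
    intro n
    rw [mem_nhdsSet_iff_forall]
    rintro ⟨x, y⟩ hxy
    have hxy' : x = y := hxy
    subst hxy'
    by_contra hcon
    have h1 : (x, x) ∈ closure (f ⁻¹' V q n)ᶜ := by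
      rw [closure_compl, mem_compl_iff, mem_interior_iff_mem_nhds]
      exact hcon
    obtain ⟨u, hu, hup⟩ := closure_subset_of_diagonal hd2 _ h1
    have h2 : Tendsto (f ∘ u) atTop (𝓝 q) := by
      have h3 : f (x, x) = q := (hq _).2 rfl
      rw [← h3]
      exact (hf.tendsto _).comp hup
    obtain ⟨k, hk⟩ := (hV.eventually_mem h2 n).exists
    exact hu k hk
  let _ : UniformSpace X := uniformSpaceOfCompactR1
  have hbasis : (uniformity X).HasBasis (fun _ : ℕ => True) fun n => f ⁻¹' V q n := by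
    rw [← nhdsSet_diagonal_eq_uniformity]
    refine ⟨fun t => ⟨fun ht => ?_, fun ⟨n, _, h2⟩ => mem_of_superset (hn n) h2⟩⟩
    obtain ⟨O, hO, hdO, hOt⟩ := mem_nhdsSet_iff_exists.1 ht
    have h1 : IsClosed (f '' Oᶜ) := (hO.isClosed_compl.isCompact.image hf).isClosed
    have h2 : q ∈ (f '' Oᶜ)ᶜ := by
      rintro ⟨z, hz, hzq⟩
      exact hz (hdO ((hq z).1 hzq))
    obtain ⟨n, h3⟩ := hV.exists_sub h1.isOpen_compl h2
    refine ⟨n, trivial, fun z hz => hOt ?_⟩
    by_contra hzO
    exact h3 hz ⟨z, hzO, rfl⟩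
  have : (uniformity X).IsCountablyGenerated := hbasis.isCountablyGenerated
  exact UniformSpace.metrizableSpace

end

/-- **Main theorem.** Let `X` be a compact space and `Y` a Hausdorff space with a weak base `V`
(so `Y` is weakly first countable). If some continuous map `f : X × X → Y` has the diagonal as one
of its fibres, then `X` is metrizable. -/
theorem result {X Y : Type*} [TopologicalSpace X] [CompactSpace X] [TopologicalSpace Y]
    [T2Space Y] (V : Y → ℕ → Set Y) (hV : IsWeakBase V)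
    (f : X × X → Y) (hf : Continuous f) (q : Y) (hq : ∀ z, f z = q ↔ z.1 = z.2) :
    TopologicalSpace.MetrizableSpace X := by
  have hT2 : T2Space X := by
    rw [t2_iff_isClosed_diagonal]
    have h1 : diagonal X = f ⁻¹' {q} := by
      ext z
      exact (hq z).symm
    rw [h1]
    exact isClosed_singleton.preimage hf
  rcases isEmpty_or_nonempty X with hE | ⟨⟨x0⟩⟩
  · infer_instance
  have hc : IsCompact (range f) := isCompact_range hf
  have hYc : CompactSpace (range f) := isCompact_iff_compactSpace.1 hc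
  have hqr : q ∈ range f := ⟨(x0, x0), (hq _).2 rfl⟩
  refine metrizable_of_compact (Y := range f) _ (hV.comap_closed hc.isClosed) (rangeFactorization f)
    (hf.subtype_mk _) ⟨q, hqr⟩ ?_
  intro z
  rw [← hq z]
  exact Subtype.mk.injEq _ _ _ _ |>.to_iff

/-- A weakly first countable compact subset `K` of a Hausdorff topological group is metrizable if
`q + θ (-x + y)` is in `K` for all `x` and `y` in `K`, for some injective continuous endomorphism
`θ` of the group. -/
theorem metrizable_of_difference {G : Type*} [AddGroup G] [TopologicalSpace G]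
    [IsTopologicalAddGroup G] [T2Space G] (K : Set G) (hK : IsCompact K) (θ : G →+ G)
    (hθ : Continuous θ) (hinj : Function.Injective θ) (q : G) (hqK : q ∈ K)
    (hq : ∀ x ∈ K, ∀ y ∈ K, q + θ (-x + y) ∈ K) (V : K → ℕ → Set K) (hV : IsWeakBase V) :
    TopologicalSpace.MetrizableSpace K := by
  have hKc : CompactSpace K := isCompact_iff_compactSpace.1 hK
  have hs : SequentialSpace K := hV.sequentialSpace
  let f : K × K → K := fun z => ⟨q + θ (-(z.1 : G) + z.2), hq _ z.1.2 _ z.2.2⟩
  have hf : Continuous f := by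
    refine Continuous.subtype_mk ?_ _
    exact continuous_const.add (hθ.comp ((continuous_subtype_val.comp continuous_fst).neg.add
      (continuous_subtype_val.comp continuous_snd)))
  refine result V hV f hf ⟨q, hqK⟩ ?_
  rintro ⟨x, y⟩
  simp only [f, Subtype.mk.injEq]
  constructor
  · intro h
    have h1 : θ (-(x : G) + y) = 0 := by simpa using h
    have h2 : -(x : G) + y = 0 := hinj (by rw [h1, map_zero])
    exact Subtype.ext (by
      have h3 := congrArg (fun t => (x : G) + t) h2
      simp only [add_neg_cancel_left, add_zero] at h3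
      exact h3.symm)
  · rintro rfl
    simp

/-- A weakly first countable, centrally symmetric, compact convex set in a Hausdorff real
topological vector space is metrizable. -/
theorem metrizable_of_symmetric_convex {E : Type*} [AddCommGroup E] [Module ℝ E]
    [TopologicalSpace E] [IsTopologicalAddGroup E] [ContinuousSMul ℝ E] [T2Space E] (K : Set E)
    (hK : IsCompact K) (hc : Convex ℝ K) (hne : K.Nonempty) (hs : ∀ x ∈ K, -x ∈ K)
    (V : K → ℕ → Set K) (hV : IsWeakBase V) : TopologicalSpace.MetrizableSpace K := by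
  have hmem : ∀ x ∈ K, ∀ y ∈ K, (0 : E) + (1 / 2 : ℝ) • (-x + y) ∈ K := by
    intro x hx y hy
    rw [zero_add, smul_add]
    exact hc (hs x hx) hy (by norm_num) (by norm_num) (by norm_num)
  have h0 : (0 : E) ∈ K := by
    obtain ⟨x, hx⟩ := hne
    have := hmem x hx x hx
    simpa using this
  refine metrizable_of_difference K hK (DistribSMul.toAddMonoidHom E (1 / 2 : ℝ))
    (continuous_const_smul _) ?_ 0 h0 hmem V hV
  intro x y hxy
  have h1 : (1 / 2 : ℝ) • x = (1 / 2 : ℝ) • y := hxy
  exact smul_right_injective E (by norm_num : (1 / 2 : ℝ) ≠ 0) h1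

/-- If the dual unit ball of a real normed space is weakly first countable in the weak-star
topology, then it is metrizable. -/
theorem metrizable_of_dual_ball {E : Type*} [NormedAddCommGroup E] [NormedSpace ℝ E]
    (V : (WeakDual.toStrongDual ⁻¹' Metric.closedBall (0 : StrongDual ℝ E) 1 : Set _) → ℕ → Set _)
    (hV : IsWeakBase V) : TopologicalSpace.MetrizableSpace
      (WeakDual.toStrongDual ⁻¹' Metric.closedBall (0 : StrongDual ℝ E) 1 : Set (WeakDual ℝ E)) := by
  refine metrizable_of_symmetric_convex _ (WeakDual.isCompact_closedBall 0 1) ?_ ?_ ?_ V hV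
  · intro x hx y hy a b ha hb hab
    exact (convex_closedBall (0 : StrongDual ℝ E) 1) hx hy ha hb hab
  · exact ⟨0, by simp⟩
  · intro x hx
    simpa using hx

end Pool.Agent.Results.MP_5baa61_gt.DiagonalFibre
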