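import Pool.Agent.Helper9Wfc.FinUnion

set_option autoImplicit false

open Set Topology Filter Helper9Wfc

namespace Pool.Agent.Results.MP_5baa61_gt.FiniteUnions

/-- the complement of a point of first countability has property wD on closures of countable
sets -/
theorem sepWD_compl {X : Type*} [TopologicalSpace X] [CompactSpace X] [T2Space X] {p : X}
    (h : (𝓝 p).IsCountablyGenerated) : SepWD ↥({p}ᶜ : Set X) := by
  obtain ⟨B, hB⟩ := (𝓝 p).exists_antitone_basis
  have hint : ∀ n, p ∈ interior (B n) := fun n => mem_interior_iff_mem_nhds.2 (hB.mem n)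
  have h1 : IsSigmaCompact ({p}ᶜ : Set X) := by
    have h2 : ({p}ᶜ : Set X) = ⋃ n, (interior (B n))ᶜ := by
      ext x
      simp only [mem_compl_iff, mem_singleton_iff, mem_iUnion]
      constructor
      · intro hxp
        obtain ⟨n, -, hn⟩ := hB.toHasBasis.mem_iff.1
          ((isOpen_compl_singleton (x := x)).mem_nhds (x := p) (fun h => hxp (by
            rw [mem_singleton_iff] at h; exact h.symm)))
        exact ⟨n, fun hx => hn (interior_subset hx) rfl⟩
      · rintro ⟨n, hn⟩ rfl
        exact hn (hint n)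
    rw [h2]
    exact isSigmaCompact_iUnion_of_isCompact _ fun n => isOpen_interior.isClosed_compl.isCompact
  have h3 : SigmaCompactSpace ↥({p}ᶜ : Set X) := isSigmaCompact_iff_sigmaCompactSpace.1 h1
  exact sepWD_of_sigmaCompact

/-- **Main theorem.** In a compact Hausdorff space with a weak base `V`, the following are
equivalent for a point `p`: the point `p` has a countable neighbourhood base; in the subspace
`{p}ᶜ`, the closures of countable sets have property wD; and some member `V p n` of the weak base at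
`p` is covered by countably many closed sets `E j` such that, for each `j`, the part of `E j` in
some member of the weak base at `p` is covered, outside `p`, by finitely many tame sets. -/
theorem result {X : Type*} [TopologicalSpace X] [CompactSpace X] [T2Space X]
    (V : X → ℕ → Set X) (hV : IsWeakBase V) (p : X) :
    List.TFAE [(𝓝 p).IsCountablyGenerated,
      SepWD ↥({p}ᶜ : Set X),
      ∃ (n : ℕ) (E : ℕ → Set X), V p n ⊆ ⋃ j, E j ∧ ∀ j, IsClosed (E j) ∧
        ∃ (m : ℕ) (𝓜 : Set (Set X)), 𝓜.Finite ∧ (∀ M ∈ 𝓜, Tame p M) ∧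
          (V p m ∩ E j) \ {p} ⊆ ⋃₀ 𝓜] := by
  tfae_have 1 → 2 := sepWD_compl
  tfae_have 2 → 3 := by
    intro h
    refine ⟨0, fun _ => univ, fun x _ => mem_iUnion.2 ⟨0, mem_univ x⟩, fun _ =>
      ⟨isClosed_univ, 0, {{p}ᶜ}, finite_singleton _, ?_, ?_⟩⟩
    · rintro M rfl
      exact ⟨fun h => h rfl, Or.inl h⟩
    · rintro x ⟨-, hxp⟩
      exact mem_sUnion.2 ⟨_, rfl, hxp⟩
  tfae_have 3 → 1 := by
    rintro ⟨n, E, hVE, hE⟩
    have h1 : ∀ j, Shell p (E j) := by
      intro j
      obtain ⟨hEc, m, 𝓜, h𝓜, hM, hcov⟩ := hE j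
      refine shell_of_finite_union hV h𝓜.toFinset
        (fun M hM' => hM M (h𝓜.mem_toFinset.1 hM')) (E j) hEc ⟨m, fun x hx => ?_⟩
      obtain ⟨M, hM', hxM⟩ := mem_sUnion.1 (hcov hx)
      exact mem_iUnion₂.2 ⟨M, h𝓜.mem_toFinset.2 hM', hxM⟩
    have h2 : Shell p (⋃ j, E j) := Shell.iUnion h1 subset_rfl
    exact isCountablyGenerated_of_shell (shell_univ_of_shell hV h2 hVE)
  tfae_finish

/-- A weakly first countable compact Hausdorff space that is the union of finitely many
hereditarily normal subspaces is first countable. -/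
theorem firstCountable_of_finite_union {X : Type*} [TopologicalSpace X] [CompactSpace X]
    [T2Space X] (V : X → ℕ → Set X) (hV : IsWeakBase V) (𝓜 : Set (Set X)) (h𝓜 : 𝓜.Finite)
    (hM : ∀ M ∈ 𝓜, CompletelyNormalSpace M) (hcov : ⋃₀ 𝓜 = univ) :
    FirstCountableTopology X := by
  refine ⟨fun p => ((result V hV p).out 2 0).1 ?_⟩
  refine ⟨0, fun _ => univ, fun x _ => mem_iUnion.2 ⟨0, mem_univ x⟩, fun _ =>
    ⟨isClosed_univ, 0, (fun M => M \ {p}) '' 𝓜, h𝓜.image _, ?_, ?_⟩⟩
  · rintro _ ⟨M, hM', rfl⟩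
    refine ⟨fun h => h.2 rfl, Or.inl ?_⟩
    have h1 := hM M hM'
    have h2 : CompletelyNormalSpace ↥(M \ {p}) :=
      (IsEmbedding.inclusion (sdiff_subset : M \ {p} ⊆ M)).completelyNormalSpace
    exact sepWD_of_completelyNormal
  · rintro x ⟨-, hxp⟩
    have hx : x ∈ ⋃₀ 𝓜 := by rw [hcov]; exact mem_univ x
    obtain ⟨M, hM', hxM⟩ := mem_sUnion.1 hx
    exact mem_sUnion.2 ⟨_, ⟨M, hM', rfl⟩, hxM, hxp⟩

end Pool.Agent.Results.MP_5baa61_gt.FiniteUnions
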