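import Pool.Agent.Helper9Wfc.Prod

set_option autoImplicit false

open Set Filter Topology Helper9Wfc

universe u

namespace Pool.Agent.Results.MP_5baa61_gt.NormalForm

/-- weakly first countable spaces (Arhangel'skii) -/
def WeaklyFirstCountable (X : Type u) [TopologicalSpace X] : Prop :=
  ∃ V : X → ℕ → Set X, IsWeakBase V

/-- pseudocompact spaces: continuous real functions are bounded -/
def Pseudocompact (X : Type u) [TopologicalSpace X] : Prop :=
  ∀ f : X → ℝ, Continuous f → ∃ C : ℝ, ∀ x, |f x| ≤ C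

section construction

variable {Y : Type u} [TopologicalSpace Y]

/-- the closure of the range of `a`, at level `⊤`, with finite copies of the beginnings of the
sequence `a` at the finite levels -/
def S (a : ℕ → Y) : Set (Y × ℕ∞) :=
  {z | (z.2 = ⊤ ∧ z.1 ∈ closure (range a)) ∨ ∃ n : ℕ, z.2 = n ∧ ∃ i ≤ n, z.1 = a i}

theorem isClosed_S [T2Space Y] (a : ℕ → Y) : IsClosed (S a) := by
  rw [← isOpen_compl_iff, isOpen_iff_mem_nhds]
  rintro ⟨y, t⟩ hz
  by_cases ht : t = ⊤
  · subst ht
    have hy : y ∉ closure (range a) := fun h => hz (Or.inl ⟨rfl, h⟩)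
    filter_upwards [prod_mem_nhds (isClosed_closure.isOpen_compl.mem_nhds hy) univ_mem] with w hw
    rintro (⟨-, h⟩ | ⟨n, -, i, -, h⟩)
    · exact hw.1 h
    · exact hw.1 (subset_closure ⟨i, h.symm⟩)
  · obtain ⟨n, rfl⟩ := ENat.ne_top_iff_exists.1 ht
    have hfin : IsClosed (a '' Iic n) := ((finite_Iic n).image a).isClosed
    have hy : y ∉ a '' Iic n := by
      rintro ⟨i, hi, rfl⟩
      exact hz (Or.inr ⟨n, rfl, i, hi, rfl⟩)
    filter_upwards [prod_mem_nhds (hfin.isOpen_compl.mem_nhds hy)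
      ((ENat.isOpen_singleton ht).mem_nhds rfl)] with w hw
    rintro (⟨h, -⟩ | ⟨m, h, i, hi, h'⟩)
    · have h1 : w.2 = n := hw.2
      rw [h] at h1
      exact ht h1.symm
    · have h1 : w.2 = n := hw.2
      rw [h, Nat.cast_inj] at h1
      subst h1
      exact hw.1 ⟨i, hi, h'.symm⟩

theorem isOpen_singleton_S [T2Space Y] (a : ℕ → Y) (z : S a) (hz : z.1.2 ≠ ⊤) :
    IsOpen ({z} : Set (S a)) := by
  obtain ⟨n, hn⟩ := ENat.ne_top_iff_exists.1 hz
  have hfin : IsClosed (a '' Iic n \ {z.1.1}) :=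
    (((finite_Iic n).image a).subset Set.sdiff_subset).isClosed
  have h1 : ({z} : Set (S a)) =
      Subtype.val ⁻¹' ((a '' Iic n \ {z.1.1})ᶜ ×ˢ ({(n : ℕ∞)} : Set ℕ∞)) := by
    ext w
    simp only [mem_singleton_iff, mem_preimage, mem_prod, mem_compl_iff, Set.mem_sdiff, not_and,
      not_not]
    constructor
    · rintro rfl
      exact ⟨fun _ => rfl, hn.symm⟩
    · rintro ⟨h2, h3⟩
      apply Subtype.ext
      apply Prod.ext
      · rcases w.2 with ⟨h4, -⟩ | ⟨m, h4, i, hi, h5⟩
        · rw [h3] at h4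
          exact absurd h4 (ENat.natCast_ne_top n)
        · rw [h3, Nat.cast_inj] at h4
          subst h4
          exact h2 ⟨i, hi, h5.symm⟩
      · rw [h3, hn]
  rw [h1]
  refine (hfin.isOpen_compl.prod (ENat.isOpen_singleton ?_)).preimage continuous_subtype_val
  exact ENat.natCast_ne_top n

open Classical in
/-- the weak base of `S a` -/
noncomputable def W (V : Y → ℕ → Set Y) (a : ℕ → Y) (z : S a) (m : ℕ) : Set (S a) :=
  if z.1.2 = ⊤ then {w | w.1.1 ∈ V z.1.1 m ∧ (m : ℕ∞) ≤ w.1.2} else {z}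

theorem exists_of_mem_nhds_top {T : Set ℕ∞} (hT : T ∈ 𝓝 (⊤ : ℕ∞)) :
    ∃ m : ℕ, ∀ t : ℕ∞, (m : ℕ∞) ≤ t → t ∈ T := by
  obtain ⟨b, hb, hbT⟩ := (nhds_top_basis (α := ℕ∞)).mem_iff.1 hT
  obtain ⟨n, rfl⟩ := ENat.ne_top_iff_exists.1 (ne_of_lt hb)
  refine ⟨n + 1, fun t ht => hbT ?_⟩
  rw [mem_Ioi]
  refine lt_of_lt_of_le ?_ ht
  exact_mod_cast Nat.lt_succ_self n

theorem isWeakBase_W [CompactSpace Y] [T2Space Y] {V : Y → ℕ → Set Y} (hV : IsWeakBase V)
    (a : ℕ → Y) : IsWeakBase (W V a) := by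
  have hY : SequentialSpace Y := hV.sequentialSpace
  refine ⟨fun z m => ?_, fun z m => ?_, fun O => ?_⟩
  · by_cases hz : z.1.2 = ⊤
    · simp only [W, if_pos hz]
      rintro w ⟨h1, h2⟩
      refine ⟨hV.1 _ _ h1, le_trans ?_ h2⟩
      exact_mod_cast Nat.le_succ m
    · simp only [W, if_neg hz]
      exact subset_rfl
  · by_cases hz : z.1.2 = ⊤
    · simp only [W, if_pos hz]
      exact ⟨hV.2.1 _ _, by rw [hz]; exact le_top⟩
    · simp only [W, if_neg hz]
      exact rfl
  constructor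
  · intro hO z hzO
    by_cases hz : z.1.2 = ⊤
    · simp only [W, if_pos hz]
      obtain ⟨O', hO', rfl⟩ := isOpen_induced_iff.1 hO
      obtain ⟨A, hA, T, hT, hAT⟩ := mem_nhds_prod_iff.1 (hO'.mem_nhds hzO)
      rw [hz] at hT
      obtain ⟨m0, hm0⟩ := exists_of_mem_nhds_top hT
      obtain ⟨m1, hm1⟩ := hV.exists_sub isOpen_interior (mem_interior_iff_mem_nhds.2 hA)
      refine ⟨max m0 m1, ?_⟩
      rintro w ⟨h1, h2⟩
      refine hAT ⟨interior_subset (hm1 (hV.anti _ (le_max_right m0 m1) h1)), hm0 _ ?_⟩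
      refine le_trans ?_ h2
      exact_mod_cast le_max_left m0 m1
    · refine ⟨0, ?_⟩
      simp only [W, if_neg hz]
      exact singleton_subset_iff.2 hzO
  · intro h
    have hprod : SequentialSpace (Y × ℕ∞) := sequentialSpace_prod
    have h1 : IsClosed (Subtype.val '' Oᶜ : Set (Y × ℕ∞)) := by
      rw [← isSeqClosed_iff_isClosed]
      intro c z hc hcz
      choose c' hc'O hc' using hc
      have hzS : z ∈ S a := by
        refine (isClosed_S a).mem_of_tendsto hcz (Eventually.of_forall fun k => ?_)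
        rw [← hc' k]
        exact (c' k).2
      refine ⟨⟨z, hzS⟩, fun hzO => ?_, rfl⟩
      have hlim : Tendsto c' atTop (𝓝 (⟨z, hzS⟩ : S a)) := by
        rw [tendsto_subtype_rng]
        simpa only [hc'] using hcz
      by_cases hz : z.2 = ⊤
      · obtain ⟨m, hm⟩ := h _ hzO
        simp only [W, if_pos hz] at hm
        have h2 : ∀ᶠ k in atTop, (c k).1 ∈ V z.1 m :=
          hV.eventually_mem ((continuous_fst.tendsto _).comp hcz) m
        have h3 : Tendsto (fun k => (c k).2) atTop (𝓝 (⊤ : ℕ∞)) := by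
          rw [← hz]
          exact (continuous_snd.tendsto _).comp hcz
        have h4 := ENat.tendsto_nhds_top_iff_natCast_lt.1 h3 m
        obtain ⟨k, hk1, hk2⟩ := (h2.and h4).exists
        refine hc'O k (hm ⟨?_, ?_⟩)
        · rw [hc' k]
          exact hk1
        · rw [hc' k]
          exact hk2.le
      · have h2 := (isOpen_singleton_S a ⟨z, hzS⟩ hz).mem_nhds rfl
        obtain ⟨k, hk⟩ := (hlim.eventually h2).exists
        have h3 : c' k = ⟨z, hzS⟩ := hk
        exact hc'O k (by rw [h3]; exact hzO)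
    have h2 : O = Subtype.val ⁻¹' (Subtype.val '' Oᶜ : Set (Y × ℕ∞))ᶜ := by
      ext w
      simp only [mem_preimage, mem_compl_iff, mem_image, Subtype.exists, not_exists, not_and]
      constructor
      · rintro hw v hvS hv rfl
        exact hv hw
      · intro hw
        by_contra hwO
        exact hw w.1 w.2 hwO rfl
    rw [h2]
    exact h1.isOpen_compl.preimage continuous_subtype_val

end construction

/-- **Main theorem.** If `Y` is a weakly first countable compact Hausdorff space that is not first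
countable, then there is a weakly first countable Hausdorff compactification `Z` of a countable
discrete space `N`, with remainder homeomorphic to a closed subspace of `Y`, and a point `p` of
`Z` which is not the limit of a sequence of points of `N`, but is the limit of a sequence of limits
of sequences of points of `N`, and whose complement in `Z` is pseudocompact and not compact. -/
theorem result (Y : Type u) [TopologicalSpace Y] [CompactSpace Y] [T2Space Y]
    (hY : WeaklyFirstCountable Y) (hn : ¬ FirstCountableTopology Y) :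
    ∃ (Z : Type u) (_ : TopologicalSpace Z) (N : Set Z) (p : Z),
      CompactSpace Z ∧ T2Space Z ∧ WeaklyFirstCountable Z ∧
      N.Countable ∧ Dense N ∧ (∀ x ∈ N, IsOpen ({x} : Set Z)) ∧
      (∃ e : ↥(Nᶜ : Set Z) → Y, IsClosedEmbedding e) ∧
      (∀ c : ℕ → Z, (∀ k, c k ∈ N) → ¬ Tendsto c atTop (𝓝 p)) ∧
      (∃ (x : ℕ → Z) (c : ℕ → ℕ → Z), Tendsto x atTop (𝓝 p) ∧
        ∀ k, (∀ j, c k j ∈ N) ∧ Tendsto (c k) atTop (𝓝 (x k))) ∧
      Pseudocompact ↥({p}ᶜ : Set Z) ∧ ¬ CompactSpace ↥({p}ᶜ : Set Z) := by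
  obtain ⟨V, hV⟩ := hY
  have hseq : SequentialSpace Y := hV.sequentialSpace
  -- a point that is not reached by sequences
  obtain ⟨p0, hp0⟩ : ∃ p0 : Y, ¬ (𝓝 p0).IsCountablyGenerated := by
    by_contra hcon
    push Not at hcon
    exact hn ⟨hcon⟩
  obtain ⟨n, hn0⟩ : ∃ n, V p0 n ∉ 𝓝 p0 := by
    by_contra hcon
    push Not at hcon
    apply hp0
    have hbasis : (𝓝 p0).HasBasis (fun _ : ℕ => True) (V p0) := by
      refine ⟨fun t => ⟨fun ht => ?_, fun ⟨n, _, h2⟩ => mem_of_superset (hcon n) h2⟩⟩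
      obtain ⟨n, h2⟩ := hV.exists_sub isOpen_interior (mem_interior_iff_mem_nhds.2 ht)
      exact ⟨n, trivial, h2.trans interior_subset⟩
    exact hbasis.isCountablyGenerated
  have hcl : p0 ∈ closure (V p0 n)ᶜ := by
    rw [closure_compl, mem_compl_iff, mem_interior_iff_mem_nhds]
    exact hn0
  obtain ⟨A, hA, hAc, hpA⟩ := countable_tight hcl
  have hAn : A.Nonempty := closure_nonempty_iff.1 ⟨p0, hpA⟩
  obtain ⟨a, rfl⟩ := hAc.exists_eq_range hAn
  have hno : p0 ∉ seqClosure (range a) := by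
    rintro ⟨u, hu, hup⟩
    obtain ⟨k, hk⟩ := (hV.eventually_mem hup n).exists
    exact hA (hu k) hk
  have hnsc : ¬ IsSeqClosed (seqClosure (range a)) := by
    intro h
    exact hno (closure_minimal subset_seqClosure h.isClosed hpA)
  simp only [IsSeqClosed] at hnsc
  push Not at hnsc
  obtain ⟨x, p', hx, hxp, hp'⟩ := hnsc
  have hxcl : ∀ k, x k ∈ closure (range a) := fun k => seqClosure_subset_closure (hx k)
  have hp'cl : p' ∈ closure (range a) :=
    isClosed_closure.mem_of_tendsto hxp (Eventually.of_forall hxcl)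
  -- the new space
  have hSc : IsClosed (S a) := isClosed_S a
  have hZc : CompactSpace (S a) := isCompact_iff_compactSpace.1 hSc.isCompact
  have hZ : IsWeakBase (W V a) := isWeakBase_W hV a
  have hZs : SequentialSpace (S a) := hZ.sequentialSpace
  let N : Set (S a) := {z | z.1.2 ≠ ⊤}
  have hNopen : ∀ z ∈ N, IsOpen ({z} : Set (S a)) := fun z hz => isOpen_singleton_S a z hz
  have hNo : IsOpen N := by
    rw [← biUnion_of_singleton N]
    exact isOpen_biUnion hNopen
  have hNa : ∀ z ∈ N, z.1.1 ∈ range a := by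
    intro z hz
    rcases z.2 with ⟨h, -⟩ | ⟨m, -, i, -, h⟩
    · exact absurd h hz
    · exact ⟨i, h.symm⟩
  have hNc : N.Countable := by
    have h1 : (Subtype.val '' N : Set (Y × ℕ∞)).Countable := by
      refine ((countable_range a).prod (countable_range (Nat.cast : ℕ → ℕ∞))).mono ?_
      rintro _ ⟨z, hz, rfl⟩
      obtain ⟨m, hm⟩ := ENat.ne_top_iff_exists.1 hz
      exact ⟨hNa z hz, m, hm⟩
    exact (countable_of_injective_of_countable_image Subtype.val_injective.injOn h1)
  have hNd : Dense N := by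
    intro z
    by_cases hz : z.1.2 = ⊤
    · rw [mem_closure_iff_nhds]
      intro O hO
      rw [nhds_subtype_eq_comap, mem_comap] at hO
      obtain ⟨O', hO', hOO⟩ := hO
      obtain ⟨B, hB, T, hT, hBT⟩ := mem_nhds_prod_iff.1 hO'
      rw [hz] at hT
      obtain ⟨m0, hm0⟩ := exists_of_mem_nhds_top hT
      have hzcl : z.1.1 ∈ closure (range a) := by
        rcases z.2 with ⟨-, h⟩ | ⟨m, -, i, -, h⟩
        · exact h
        · exact subset_closure ⟨i, h.symm⟩
      obtain ⟨_, hiB, ⟨i, rfl⟩⟩ := mem_closure_iff_nhds.1 hzcl B hB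
      refine ⟨⟨(a i, ((max i m0 : ℕ) : ℕ∞)), Or.inr ⟨_, rfl, i, le_max_left _ _, rfl⟩⟩,
        hOO (hBT ⟨hiB, hm0 _ ?_⟩), ?_⟩
      · have h5 : ((m0 : ℕ) : ℕ∞) ≤ ((max i m0 : ℕ) : ℕ∞) := by
          exact_mod_cast le_max_right i m0
        exact h5
      · exact ENat.natCast_ne_top _
    · exact subset_closure hz
  let p : S a := ⟨(p', ⊤), Or.inl ⟨rfl, hp'cl⟩⟩
  have hpN : p ∉ N := fun h => h rfl
  have hnoseq : ∀ c : ℕ → S a, (∀ k, c k ∈ N) → ¬ Tendsto c atTop (𝓝 p) := by
    intro c hc hcp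
    apply hp'
    refine ⟨fun k => (c k).1.1, fun k => hNa _ (hc k), ?_⟩
    exact ((continuous_fst.comp continuous_subtype_val).tendsto p).comp hcp
  have hpopen : IsOpen ({p}ᶜ : Set (S a)) := isOpen_compl_singleton
  refine ⟨S a, inferInstance, N, p, hZc, inferInstance, ⟨_, hZ⟩, hNc, hNd, hNopen, ?_, hnoseq,
    ?_, ?_, ?_⟩
  · -- the remainder
    refine ⟨fun z => z.1.1.1, ?_⟩
    have hc : CompactSpace ↥(Nᶜ : Set (S a)) :=
      isCompact_iff_compactSpace.1 hNo.isClosed_compl.isCompact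
    refine Continuous.isClosedEmbedding ?_ ?_
    · exact continuous_fst.comp (continuous_subtype_val.comp continuous_subtype_val)
    · rintro ⟨z, hz⟩ ⟨w, hw⟩ hzw
      have hz' : z.1.2 = ⊤ := not_not.1 hz
      have hw' : w.1.2 = ⊤ := not_not.1 hw
      apply Subtype.ext
      apply Subtype.ext
      exact Prod.ext hzw (hz'.trans hw'.symm)
  · -- the double sequence
    choose b hb hbx using hx
    choose i hi using hb
    refine ⟨fun k => ⟨(x k, ⊤), Or.inl ⟨rfl, hxcl k⟩⟩,
      fun k j => ⟨(a (i k j), ((max (i k j) j : ℕ) : ℕ∞)),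
        Or.inr ⟨_, rfl, i k j, le_max_left _ _, rfl⟩⟩, ?_, fun k => ⟨fun j => ?_, ?_⟩⟩
    · rw [tendsto_subtype_rng]
      exact hxp.prodMk_nhds tendsto_const_nhds
    · exact ENat.natCast_ne_top _
    · rw [tendsto_subtype_rng]
      refine Tendsto.prodMk_nhds ?_ ?_
      · have h1 : (fun j => a (i k j)) = b k := funext fun j => hi k j
        rw [h1]
        exact hbx k
      · rw [ENat.tendsto_nhds_top_iff_natCast_lt]
        intro m
        filter_upwards [eventually_gt_atTop m] with j hj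
        exact_mod_cast hj.trans_le (le_max_right (i k j) j)
  · -- pseudocompactness
    intro f hf
    by_contra hcon
    push Not at hcon
    have h1 : ∀ k : ℕ, ∃ z : ↥({p}ᶜ : Set (S a)), (z : S a) ∈ N ∧ (k : ℝ) < |f z| := by
      intro k
      obtain ⟨z, hz⟩ := hcon k
      have h2 : IsOpen (Subtype.val '' {w : ↥({p}ᶜ : Set (S a)) | (k : ℝ) < |f w|}) :=
        hpopen.isOpenMap_subtype_val _ (isOpen_lt continuous_const hf.abs)
      obtain ⟨_, ⟨w, hw, rfl⟩, hwN⟩ := hNd.inter_open_nonempty _ h2 ⟨_, z, hz, rfl⟩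
      exact ⟨w, hwN, hw⟩
    choose z hzN hz using h1
    obtain ⟨q, φ, hφ, hq⟩ := SeqCompactSpace.tendsto_subseq (fun k => (z k : S a))
    have hqp : q ≠ p := by
      rintro rfl
      exact hnoseq _ (fun k => hzN (φ k)) hq
    have hlim : Tendsto (fun k => z (φ k)) atTop (𝓝 (⟨q, hqp⟩ : ↥({p}ᶜ : Set (S a)))) := by
      rw [tendsto_subtype_rng]
      exact hq
    have h3 : Tendsto (fun k => |f (z (φ k))|) atTop (𝓝 |f ⟨q, hqp⟩|) :=
      (hf.abs.tendsto _).comp hlim
    have h4 : Tendsto (fun k => |f (z (φ k))|) atTop atTop := by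
      refine tendsto_atTop_mono (fun k => (hz (φ k)).le) ?_
      exact tendsto_natCast_atTop_atTop.comp hφ.tendsto_atTop
    exact not_tendsto_nhds_of_tendsto_atTop h4 _ h3
  · intro h
    have h1 : IsCompact ({p}ᶜ : Set (S a)) := isCompact_iff_compactSpace.2 h
    have h2 : IsOpen ({p} : Set (S a)) := by
      rw [← compl_compl ({p} : Set (S a))]
      exact h1.isClosed.isOpen_compl
    obtain ⟨z, hz, hzN⟩ := hNd.inter_open_nonempty _ h2 ⟨p, rfl⟩
    rw [mem_singleton_iff] at hz
    exact hpN (hz ▸ hzN)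

end Pool.Agent.Results.MP_5baa61_gt.NormalForm
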